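import Mathlib

/-!
# Gluing of CAT(0) spaces (Reshetnyak), in the form of the inequality of Bruhat and Tits

`GeoCN S` : the subset `S` of a metric space, with the restricted metric, is a geodesic space in
which every triangle satisfies the comparison inequality (vertex against opposite side).
-/

set_option autoImplicit false

namespace Pool.Agent.CNGlue

open Set

variable {X : Type*} [MetricSpace X]

/-- `γ` is a geodesic from `x` to `y`, parametrised proportionally to arc length on `[0,1]`. -/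
def IsGeod (γ : ℝ → X) (x y : X) : Prop :=
  γ 0 = x ∧ γ 1 = y ∧ ∀ s ∈ Icc (0 : ℝ) 1, ∀ t ∈ Icc (0 : ℝ) 1, dist (γ s) (γ t) = |s - t| * dist x y

/-- The comparison inequality of the point `p` against the path `γ` from `x` to `y`. -/
def Stew (p : X) (γ : ℝ → X) (x y : X) : Prop :=
  ∀ t ∈ Icc (0 : ℝ) 1, dist p (γ t) ^ 2 ≤
    (1 - t) * dist p x ^ 2 + t * dist p y ^ 2 - t * (1 - t) * dist x y ^ 2

/-- `S` with the restricted metric is a geodesic space satisfying the comparison inequality. -/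
def GeoCN (S : Set X) : Prop :=
  ∀ x ∈ S, ∀ y ∈ S, ∃ γ : ℝ → X, IsGeod γ x y ∧ (∀ t ∈ Icc (0 : ℝ) 1, γ t ∈ S) ∧
    ∀ p ∈ S, Stew p γ x y

/-- Any two points of `A` are joined by a geodesic inside `A`. -/
def GeoConv (A : Set X) : Prop :=
  ∀ x ∈ A, ∀ y ∈ A, ∃ γ : ℝ → X, IsGeod γ x y ∧ ∀ t ∈ Icc (0 : ℝ) 1, γ t ∈ A

namespace IsGeod

variable {γ : ℝ → X} {x y : X}

theorem dist_left (h : IsGeod γ x y) {t : ℝ} (ht : t ∈ Icc (0 : ℝ) 1) :
    dist x (γ t) = t * dist x y := by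
  have h1 := h.2.2 0 (by simp) t ht
  rw [h.1] at h1
  rw [h1, zero_sub, abs_neg, abs_of_nonneg ht.1]

theorem dist_right (h : IsGeod γ x y) {t : ℝ} (ht : t ∈ Icc (0 : ℝ) 1) :
    dist (γ t) y = (1 - t) * dist x y := by
  have h1 := h.2.2 t ht 1 (by simp)
  rw [h.2.1] at h1
  rw [h1, abs_sub_comm, abs_of_nonneg (by linarith [ht.2])]

/-- the reversed geodesic -/
theorem symm (h : IsGeod γ x y) : IsGeod (fun t => γ (1 - t)) y x := by
  refine ⟨by simp [h.2.1], by simp [h.1], ?_⟩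
  intro s hs t ht
  have h1 := h.2.2 (1 - s) ⟨by linarith [hs.2], by linarith [hs.1]⟩ (1 - t)
    ⟨by linarith [ht.2], by linarith [ht.1]⟩
  rw [h1, dist_comm y x]
  congr 1
  rw [show (1 - s) - (1 - t) = -(s - t) by ring, abs_neg]

/-- the constant geodesic -/
theorem refl (x : X) : IsGeod (fun _ => x) x x :=
  ⟨rfl, rfl, fun s _ t _ => by simp⟩

end IsGeod

/-- A geodesic satisfying the comparison inequality against all points of `S` is the only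
geodesic inside `S`. -/
theorem eq_of_stew {γ γ' : ℝ → X} {x y : X} (h' : IsGeod γ' x y)
    {t : ℝ} (ht : t ∈ Icc (0 : ℝ) 1) (hs : Stew (γ' t) γ x y) : γ' t = γ t := by
  have h1 := hs t ht
  have h2 := h'.dist_left ht
  have h3 := h'.dist_right ht
  rw [dist_comm (γ' t) x, h2, h3] at h1
  have h4 : dist (γ' t) (γ t) ^ 2 ≤ 0 := by
    refine h1.trans (le_of_eq ?_)
    ring
  have h5 : dist (γ' t) (γ t) = 0 := by
    have := sq_nonneg (dist (γ' t) (γ t))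
    exact pow_eq_zero_iff (two_ne_zero) |>.mp (le_antisymm h4 this)
  exact dist_eq_zero.mp h5

theorem GeoCN.geoConv {S : Set X} (hS : GeoCN S) : GeoConv S := fun x hx y hy => by
  obtain ⟨γ, h1, h2, _⟩ := hS x hx y hy
  exact ⟨γ, h1, h2⟩

/-- In a `GeoCN` set all geodesics inside the set satisfy the comparison inequality. -/
theorem GeoCN.stew {S : Set X} (hS : GeoCN S) {x y : X} (hx : x ∈ S) (hy : y ∈ S) {γ : ℝ → X}
    (hγ : IsGeod γ x y) (hγS : ∀ t ∈ Icc (0 : ℝ) 1, γ t ∈ S) {p : X} (hp : p ∈ S) :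
    Stew p γ x y := by
  obtain ⟨γ', h1, h2, h3⟩ := hS x hx y hy
  intro t ht
  rw [eq_of_stew hγ ht (h3 _ (hγS t ht))]
  exact h3 p hp t ht

/-- The comparison of points on two sides issuing from the same vertex `v`. -/
theorem GeoCN.hinge {S : Set X} (hS : GeoCN S) {v x y : X} (hv : v ∈ S) (hx : x ∈ S) (hy : y ∈ S)
    {α β : ℝ → X} (hα : IsGeod α v x) (hαS : ∀ t ∈ Icc (0 : ℝ) 1, α t ∈ S)
    (hβ : IsGeod β v y) (hβS : ∀ t ∈ Icc (0 : ℝ) 1, β t ∈ S) {s t : ℝ}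
    (hs : s ∈ Icc (0 : ℝ) 1) (ht : t ∈ Icc (0 : ℝ) 1) :
    dist (α s) (β t) ^ 2 ≤ s ^ 2 * dist v x ^ 2 + t ^ 2 * dist v y ^ 2 -
      s * t * (dist v x ^ 2 + dist v y ^ 2 - dist x y ^ 2) := by
  have h1 := hS.stew hv hy hβ hβS (hαS s hs) t ht
  have h2 := hS.stew hv hx hα hαS hy s hs
  have h3 := hα.dist_left hs
  rw [dist_comm v (α s)] at h3
  rw [h3] at h1
  rw [dist_comm y (α s), dist_comm y v, dist_comm y x] at h2
  have h4 := mul_le_mul_of_nonneg_left h2 ht.1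
  nlinarith [h1, h4]

/-! ### The crossing lemma -/

theorem add_sq_le_of_sq_le {A B X Y ρ : ℝ} (hρ0 : 0 < ρ) (hρ1 : ρ < 1)
    (hX : A ^ 2 ≤ ρ * X) (hY : B ^ 2 ≤ (1 - ρ) * Y) : (A + B) ^ 2 ≤ X + Y := by
  have h1 : (A + B) ^ 2 * (ρ * (1 - ρ)) ≤ (X + Y) * (ρ * (1 - ρ)) := by
    have h2 := mul_le_mul_of_nonneg_left hX (by linarith : (0 : ℝ) ≤ 1 - ρ)
    have h3 := mul_le_mul_of_nonneg_left hY hρ0.le
    nlinarith [sq_nonneg ((1 - ρ) * A - ρ * B)]
  exact le_of_mul_le_mul_right h1 (mul_pos hρ0 (by linarith))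

/-- The crossing lemma: `q` is between `p` and `r`; `w` is the point at fraction `θ` on the side
from `o` to `r`; `c` runs through the side from `q` to `o`. -/
theorem crossing {p q r o w : X} {θ : ℝ} (hθ : θ ∈ Icc (0 : ℝ) 1)
    (hq : dist p r = dist p q + dist q r) (c : ℝ → X)
    (hc : ∀ σ ∈ Icc (0 : ℝ) 1, dist p (c σ) ^ 2 ≤ (1 - σ) * dist p q ^ 2 + σ * dist p o ^ 2 -
      σ * (1 - σ) * dist q o ^ 2)
    (hcw : ∀ σ ∈ Icc (0 : ℝ) 1, dist (c σ) w ^ 2 ≤ (1 - σ) ^ 2 * dist o q ^ 2 +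
      θ ^ 2 * dist o r ^ 2 - (1 - σ) * θ * (dist o q ^ 2 + dist o r ^ 2 - dist q r ^ 2)) :
    dist p w ^ 2 ≤ (1 - θ) * dist p o ^ 2 + θ * dist p r ^ 2 - θ * (1 - θ) * dist o r ^ 2 := by
  obtain ⟨P, hP⟩ : ∃ P, P = dist p q := ⟨_, rfl⟩
  obtain ⟨Q, hQ⟩ : ∃ Q, Q = dist q r := ⟨_, rfl⟩
  obtain ⟨s, hs⟩ : ∃ s, s = dist o q := ⟨_, rfl⟩
  obtain ⟨a, ha⟩ : ∃ a, a = dist p o := ⟨_, rfl⟩
  obtain ⟨b, hb⟩ : ∃ b, b = dist o r := ⟨_, rfl⟩
  have hP0 : 0 ≤ P := hP ▸ dist_nonneg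
  have hQ0 : 0 ≤ Q := hQ ▸ dist_nonneg
  have htri : ∀ σ, dist p w ^ 2 ≤ (dist p (c σ) + dist (c σ) w) ^ 2 := fun σ =>
    pow_le_pow_left₀ dist_nonneg (dist_triangle _ _ _) 2
  -- the degenerate cases: one of the two summands vanishes
  have hdeg1 : ∀ σ, dist p (c σ) ^ 2 ≤ 0 → dist p w ^ 2 ≤ dist (c σ) w ^ 2 := fun σ h => by
    have h1 : dist p (c σ) = 0 := pow_eq_zero_iff two_ne_zero |>.mp (le_antisymm h (sq_nonneg _))
    rw [dist_eq_zero.mp h1]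
  have hdeg2 : ∀ σ, dist (c σ) w ^ 2 ≤ 0 → dist p w ^ 2 ≤ dist p (c σ) ^ 2 := fun σ h => by
    have h1 : dist (c σ) w = 0 := pow_eq_zero_iff two_ne_zero |>.mp (le_antisymm h (sq_nonneg _))
    rw [dist_eq_zero.mp h1]
  simp only [dist_comm q o, ← hP, ← hs, ← ha] at hc
  simp only [← hs, ← hb, ← hQ] at hcw
  rw [hq, ← hP, ← hQ, ← ha, ← hb]
  rcases hP0.eq_or_lt with h0 | hPpos
  · -- `p = q`
    have hpq : p = q := dist_eq_zero.mp (by rw [← hP, ← h0])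
    have has : a = s := by rw [ha, hs, hpq, dist_comm]
    have h1 := hc 0 (by simp)
    have h2 := hcw 0 (by simp)
    have h3 := hdeg1 0 (by rw [← h0] at h1; simpa using h1)
    rw [← h0, has]
    nlinarith [h2, h3]
  rcases hθ.1.eq_or_lt with h0 | hθpos
  · -- `θ = 0`
    have h1 := hc 1 (by simp)
    have h2 := hcw 1 (by simp)
    rw [← h0] at h2 ⊢
    have h3 := hdeg2 1 (by simpa using h2)
    nlinarith [h1, h3]
  rcases hQ0.eq_or_lt with h0 | hQpos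
  · -- `q = r`
    have hqr : q = r := dist_eq_zero.mp (by rw [← hQ, ← h0])
    have hbs : b = s := by rw [hb, hs, hqr]
    have hσ : (1 - θ) ∈ Icc (0 : ℝ) 1 := ⟨by linarith [hθ.2], by linarith [hθ.1]⟩
    have h1 := hc (1 - θ) hσ
    have h2 := hcw (1 - θ) hσ
    rw [← h0, hbs] at h2 ⊢
    have h3 := hdeg2 (1 - θ) (by refine h2.trans (le_of_eq ?_); ring)
    nlinarith [h1, h3]
  -- the general case
  obtain ⟨M, hM⟩ : ∃ M, M = P + θ * Q := ⟨_, rfl⟩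
  have hMpos : 0 < M := by rw [hM]; positivity
  have hρ0 : 0 < P / M := div_pos hPpos hMpos
  have hρ1 : P / M < 1 := by
    rw [div_lt_one hMpos, hM]
    have := mul_pos hθpos hQpos
    linarith
  have hσ : (1 - θ) * P / M ∈ Icc (0 : ℝ) 1 := by
    constructor
    · exact div_nonneg (mul_nonneg (by linarith [hθ.2]) hP0) hMpos.le
    · rw [div_le_one hMpos, hM]
      nlinarith [mul_nonneg hθ.1 hP0, mul_nonneg hθ.1 hQ0]
  have h1 := hc _ hσ
  have h2 := hcw _ hσ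
  refine (htri ((1 - θ) * P / M)).trans ?_
  have h1' : (1 - (1 - θ) * P / M) * P ^ 2 + (1 - θ) * P / M * a ^ 2 -
      (1 - θ) * P / M * (1 - (1 - θ) * P / M) * s ^ 2 =
      P / M * (θ * (P + Q) * P + (1 - θ) * a ^ 2 - θ * (1 - θ) * (P + Q) * s ^ 2 / M) := by
    have hM' : M ≠ 0 := hMpos.ne'
    field_simp
    rw [hM]
    ring
  have h2' : (1 - (1 - θ) * P / M) ^ 2 * s ^ 2 + θ ^ 2 * b ^ 2 -
      (1 - (1 - θ) * P / M) * θ * (s ^ 2 + b ^ 2 - Q ^ 2) =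
      (1 - P / M) * (θ * (1 - θ) * (P + Q) * s ^ 2 / M - θ * (1 - θ) * b ^ 2 +
        θ * (P + Q) * Q) := by
    have hM' : M ≠ 0 := hMpos.ne'
    field_simp
    rw [hM]
    ring
  rw [h1'] at h1
  rw [h2'] at h2
  refine (add_sq_le_of_sq_le hρ0 hρ1 h1 h2).trans (le_of_eq ?_)
  ring

end Pool.Agent.CNGlue
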