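import Pool.Agent.CNGlue.Glue

/-!
# Constructions of spaces satisfying the comparison inequality

Directed unions, isometric images, intervals, `ℓ²` products, chains of gluings.
-/

set_option autoImplicit false

namespace Pool.Agent.CNGlue

open Set

variable {X Y Z : Type*} [MetricSpace X] [MetricSpace Y] [MetricSpace Z]

theorem geoCN_empty : GeoCN (∅ : Set X) := fun x hx => by simp at hx

theorem geoCN_singleton (a : X) : GeoCN ({a} : Set X) := by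
  intro x hx y hy
  rw [mem_singleton_iff] at hx hy
  subst hx
  subst hy
  refine ⟨fun _ => y, IsGeod.refl y, fun _ _ => rfl, ?_⟩
  intro p hp t ht
  rw [mem_singleton_iff] at hp
  subst hp
  simp

theorem geoConv_singleton (a : X) : GeoConv ({a} : Set X) := (geoCN_singleton a).geoConv

/-! ### Unions -/

/-- Directed unions. -/
theorem GeoCN.iUnion {ι : Type*} {S : ι → Set X} (hdir : Directed (· ⊆ ·) S)
    (hS : ∀ i, GeoCN (S i)) : GeoCN (⋃ i, S i) := by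
  intro x hx y hy
  rw [mem_iUnion] at hx hy
  obtain ⟨i, hi⟩ := hx
  obtain ⟨j, hj⟩ := hy
  obtain ⟨k, hik, hjk⟩ := hdir i j
  obtain ⟨γ, h1, h2, h3⟩ := hS k x (hik hi) y (hjk hj)
  refine ⟨γ, h1, fun t ht => mem_iUnion.mpr ⟨k, h2 t ht⟩, ?_⟩
  intro p hp
  rw [mem_iUnion] at hp
  obtain ⟨l, hl⟩ := hp
  obtain ⟨m, hkm, hlm⟩ := hdir k l
  exact (hS m).stew (hkm (hik hi)) (hkm (hjk hj)) h1 (fun t ht => hkm (h2 t ht)) (hlm hl)

/-- A union exhausted by a directed family of sets `F`, for which the union of `P` is `GeoCN`. -/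
theorem GeoCN.of_exhaust {T : Set X} (h : ∀ x ∈ T, ∀ y ∈ T, ∀ p ∈ T, ∃ S : Set X, S ⊆ T ∧ GeoCN S ∧
    x ∈ S ∧ y ∈ S ∧ p ∈ S)
    (hdir : ∀ S S' : Set X, S ⊆ T → GeoCN S → S' ⊆ T → GeoCN S' → ∃ S'' : Set X, S'' ⊆ T ∧ GeoCN S'' ∧
      S ⊆ S'' ∧ S' ⊆ S'') : GeoCN T := by
  intro x hx y hy
  obtain ⟨S, hST, hS, hxS, hyS, _⟩ := h x hx y hy y hy
  obtain ⟨γ, h1, h2, h3⟩ := hS x hxS y hyS
  refine ⟨γ, h1, fun t ht => hST (h2 t ht), ?_⟩
  intro p hp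
  obtain ⟨S', hST', hS', _, _, hpS'⟩ := h x hx y hy p hp
  obtain ⟨S'', _, hS'', hsub, hsub'⟩ := hdir S S' hST hS hST' hS'
  exact hS''.stew (hsub hxS) (hsub hyS) h1 (fun t ht => hsub (h2 t ht)) (hsub' hpS')

/-- Successive gluing along a list of pieces. -/
theorem GeoCN.biUnion_range (P : ℕ → Set X) (n : ℕ) (h0 : ∀ k, k ≤ n → GeoCN (P k))
    (h1 : ∀ k, k < n → GeoConv ((⋃ j ∈ Iic k, P j) ∩ P (k + 1)))
    (h2 : ∀ k, k < n → Cross (⋃ j ∈ Iic k, P j) (P (k + 1))) : GeoCN (⋃ j ∈ Iic n, P j) := by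
  induction n with
  | zero =>
    have h3 : (⋃ j ∈ Iic 0, P j) = P 0 := by
      ext x; simp
    rw [h3]
    exact h0 0 le_rfl
  | succ n ih =>
    have h3 : (⋃ j ∈ Iic (n + 1), P j) = (⋃ j ∈ Iic n, P j) ∪ P (n + 1) := by
      ext x
      simp only [mem_iUnion, mem_Iic, mem_union, exists_prop]
      constructor
      · rintro ⟨j, hj, hx⟩
        rcases Nat.lt_or_ge n j with h | h
        · right
          have : j = n + 1 := by omega
          rw [← this]; exact hx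
        · exact Or.inl ⟨j, h, hx⟩
      · rintro (⟨j, hj, hx⟩ | hx)
        · exact ⟨j, by omega, hx⟩
        · exact ⟨n + 1, le_rfl, hx⟩
    rw [h3]
    exact (ih (fun k hk => h0 k (by omega)) (fun k hk => h1 k (by omega))
      (fun k hk => h2 k (by omega))).union (h0 (n + 1) le_rfl) (h1 n (by omega)) (h2 n (by omega))

/-! ### Isometric images -/

theorem IsGeod.map {f : X → Y} (hf : Isometry f) {γ : ℝ → X} {x y : X} (h : IsGeod γ x y) :
    IsGeod (fun t => f (γ t)) (f x) (f y) := by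
  refine ⟨by simp [h.1], by simp [h.2.1], ?_⟩
  intro s hs t ht
  rw [hf.dist_eq, hf.dist_eq]
  exact h.2.2 s hs t ht

theorem GeoCN.image {f : X → Y} (hf : Isometry f) {S : Set X} (hS : GeoCN S) : GeoCN (f '' S) := by
  rintro _ ⟨x, hx, rfl⟩ _ ⟨y, hy, rfl⟩
  obtain ⟨γ, h1, h2, h3⟩ := hS x hx y hy
  refine ⟨fun t => f (γ t), h1.map hf, fun t ht => ⟨γ t, h2 t ht, rfl⟩, ?_⟩
  rintro _ ⟨p, hp, rfl⟩ t ht
  simp only [hf.dist_eq]
  exact h3 p hp t ht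

theorem GeoConv.image {f : X → Y} (hf : Isometry f) {S : Set X} (hS : GeoConv S) :
    GeoConv (f '' S) := by
  rintro _ ⟨x, hx, rfl⟩ _ ⟨y, hy, rfl⟩
  obtain ⟨γ, h1, h2⟩ := hS x hx y hy
  exact ⟨fun t => f (γ t), h1.map hf, fun t ht => ⟨γ t, h2 t ht, rfl⟩⟩

/-- Maps which are isometric on `S`. -/
theorem GeoCN.image_of_isometryOn {f : X → Y} {S : Set X}
    (hf : ∀ x ∈ S, ∀ y ∈ S, dist (f x) (f y) = dist x y) (hS : GeoCN S) : GeoCN (f '' S) := by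
  rintro _ ⟨x, hx, rfl⟩ _ ⟨y, hy, rfl⟩
  obtain ⟨γ, h1, h2, h3⟩ := hS x hx y hy
  refine ⟨fun t => f (γ t), ⟨by simp [h1.1], by simp [h1.2.1], ?_⟩,
    fun t ht => ⟨γ t, h2 t ht, rfl⟩, ?_⟩
  · intro s hs t ht
    rw [hf _ (h2 s hs) _ (h2 t ht), hf _ hx _ hy]
    exact h1.2.2 s hs t ht
  · rintro _ ⟨p, hp, rfl⟩ t ht
    rw [hf _ hp _ (h2 t ht), hf _ hp _ hx, hf _ hp _ hy, hf _ hx _ hy]
    exact h3 p hp t ht

theorem GeoConv.image_of_isometryOn {f : X → Y} {S : Set X}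
    (hf : ∀ x ∈ S, ∀ y ∈ S, dist (f x) (f y) = dist x y) (hS : GeoConv S) : GeoConv (f '' S) := by
  rintro _ ⟨x, hx, rfl⟩ _ ⟨y, hy, rfl⟩
  obtain ⟨γ, h1, h2⟩ := hS x hx y hy
  refine ⟨fun t => f (γ t), ⟨by simp [h1.1], by simp [h1.2.1], ?_⟩,
    fun t ht => ⟨γ t, h2 t ht, rfl⟩⟩
  intro s hs t ht
  rw [hf _ (h2 s hs) _ (h2 t ht), hf _ hx _ hy]
  exact h1.2.2 s hs t ht

/-! ### The line -/

theorem isGeod_real (x y : ℝ) : IsGeod (fun t => (1 - t) * x + t * y) x y := by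
  refine ⟨by simp, by simp, ?_⟩
  intro s _ t _
  rw [Real.dist_eq, Real.dist_eq, ← abs_mul]
  rw [← abs_neg]
  congr 1
  ring

theorem stew_real (x y p : ℝ) : Stew p (fun t => (1 - t) * x + t * y) x y := by
  intro t _
  simp only [Real.dist_eq, sq_abs]
  apply le_of_eq
  ring

theorem geoCN_real_of_convex {s : Set ℝ} (hs : Convex ℝ s) : GeoCN s := by
  intro x hx y hy
  refine ⟨fun t => (1 - t) * x + t * y, isGeod_real x y, ?_, fun p _ => stew_real x y p⟩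
  intro t ht
  have := hs hx hy (by linarith [ht.2] : (0 : ℝ) ≤ 1 - t) ht.1 (by ring)
  simpa using this

theorem geoCN_Icc (a b : ℝ) : GeoCN (Icc a b) := geoCN_real_of_convex (convex_Icc a b)

/-! ### Products -/

theorem dist_sq_withLp (p q : WithLp 2 (X × Y)) :
    dist p q ^ 2 = dist p.fst q.fst ^ 2 + dist p.snd q.snd ^ 2 := by
  have h2 : (2 : ENNReal).toReal = 2 := by norm_num
  rw [WithLp.prod_dist_eq_add (by rw [h2]; norm_num), h2]
  have h0 : 0 ≤ dist p.fst q.fst ^ (2 : ℝ) + dist p.snd q.snd ^ (2 : ℝ) := by positivity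
  rw [← Real.sqrt_eq_rpow, Real.sq_sqrt h0]
  norm_cast

theorem IsGeod.prod {γ : ℝ → X} {δ : ℝ → Y} {x x' : X} {y y' : Y} (h : IsGeod γ x x')
    (h' : IsGeod δ y y') :
    IsGeod (fun t => WithLp.toLp 2 (γ t, δ t)) (WithLp.toLp 2 (x, y)) (WithLp.toLp 2 (x', y')) := by
  refine ⟨by simp [h.1, h'.1], by simp [h.2.1, h'.2.1], ?_⟩
  intro s hs t ht
  have h1 : dist (WithLp.toLp 2 (γ s, δ s)) (WithLp.toLp 2 (γ t, δ t)) ^ 2 =
      (|s - t| * dist (WithLp.toLp 2 (x, y)) (WithLp.toLp 2 (x', y'))) ^ 2 := by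
    rw [mul_pow, dist_sq_withLp, dist_sq_withLp]
    change dist (γ s) (γ t) ^ 2 + dist (δ s) (δ t) ^ 2 =
      |s - t| ^ 2 * (dist x x' ^ 2 + dist y y' ^ 2)
    rw [h.2.2 s hs t ht, h'.2.2 s hs t ht]
    ring
  exact (pow_left_inj₀ dist_nonneg (by positivity) two_ne_zero).mp h1

/-- The `ℓ²` product. -/
theorem GeoCN.prod {S : Set X} {T : Set Y} (hS : GeoCN S) (hT : GeoCN T) :
    GeoCN {p : WithLp 2 (X × Y) | p.fst ∈ S ∧ p.snd ∈ T} := by
  rintro p ⟨hp1, hp2⟩ q ⟨hq1, hq2⟩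
  obtain ⟨γ, h1, h2, h3⟩ := hS _ hp1 _ hq1
  obtain ⟨δ, h1', h2', h3'⟩ := hT _ hp2 _ hq2
  refine ⟨fun t => WithLp.toLp 2 (γ t, δ t), h1.prod h1', fun t ht => ⟨h2 t ht, h2' t ht⟩, ?_⟩
  rintro r ⟨hr1, hr2⟩ t ht
  have e1 := h3 _ hr1 t ht
  have e2 := h3' _ hr2 t ht
  rw [dist_sq_withLp, dist_sq_withLp, dist_sq_withLp, dist_sq_withLp]
  change dist r.fst (γ t) ^ 2 + dist r.snd (δ t) ^ 2 ≤ _
  linarith

/-! ### The inequality of Bruhat and Tits -/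

/-- The inequality of Bruhat and Tits. -/
def IsCN (X : Type*) [MetricSpace X] : Prop :=
  ∀ x y : X, ∃ m : X, ∀ z : X,
    dist z m ^ 2 ≤ (dist z x ^ 2 + dist z y ^ 2) / 2 - dist x y ^ 2 / 4

theorem GeoCN.isCN (h : GeoCN (univ : Set X)) : IsCN X := by
  intro x y
  obtain ⟨γ, _, _, h3⟩ := h x (mem_univ _) y (mem_univ _)
  refine ⟨γ (1 / 2), fun z => ?_⟩
  have := h3 z (mem_univ _) (1 / 2) ⟨by norm_num, by norm_num⟩
  linarith

end Pool.Agent.CNGlue
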