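import Pool.Agent.CNGlue.Basic

/-!
# The gluing theorem of Reshetnyak

`X = S ∪ T`, both `S` and `T` are geodesic spaces with the comparison inequality, `S ∩ T` is
geodesically convex, and geodesics from `S` to `T` pass through `S ∩ T`. Then `S ∪ T` satisfies the
comparison inequality.
-/

set_option autoImplicit false

namespace Pool.Agent.CNGlue

open Set

variable {X : Type*} [MetricSpace X]

/-- Geodesics from `S` to `T` pass through `S ∩ T`. -/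
def Cross (S T : Set X) : Prop :=
  ∀ x ∈ S, ∀ y ∈ T, ∃ a ∈ S ∩ T, dist x y = dist x a + dist a y

theorem Cross.symm {S T : Set X} (h : Cross S T) : Cross T S := fun x hx y hy => by
  obtain ⟨a, ha, h1⟩ := h y hy x hx
  exact ⟨a, ⟨ha.2, ha.1⟩, by rw [dist_comm x y, h1, dist_comm x a, dist_comm a y]; ring⟩

variable {S T : Set X}

/-- Points of `S` against geodesics of `T` from a point of `S ∩ T`. -/
theorem stew_of_mem_left (hS : GeoCN S) (hT : GeoCN T) (hA : GeoConv (S ∩ T)) (hc : Cross S T)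
    {p o r : X} (hp : p ∈ S) (ho : o ∈ S ∩ T) (hr : r ∈ T) {γ : ℝ → X} (hγ : IsGeod γ o r)
    (hγT : ∀ t ∈ Icc (0 : ℝ) 1, γ t ∈ T) : Stew p γ o r := by
  intro θ hθ
  obtain ⟨q, hq, hpr⟩ := hc p hp r hr
  obtain ⟨δ, hδ, hδA⟩ := hA q hq o ho
  refine crossing hθ hpr δ ?_ ?_
  · intro σ hσ
    exact hS.stew hq.1 ho.1 hδ (fun t ht => (hδA t ht).1) hp σ hσ
  · intro σ hσ
    have hσ' : 1 - σ ∈ Icc (0 : ℝ) 1 := ⟨by linarith [hσ.2], by linarith [hσ.1]⟩
    have h1 := hT.hinge ho.2 hq.2 hr hδ.symm (fun t ht => (hδA (1 - t)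
      ⟨by linarith [ht.2], by linarith [ht.1]⟩).2) hγ hγT hσ' hθ
    simpa using h1

/-- Points of `S` against geodesics of `T`. -/
theorem stew_of_mem (hS : GeoCN S) (hT : GeoCN T) (hA : GeoConv (S ∩ T)) (hc : Cross S T)
    {p o r : X} (hp : p ∈ S) (ho : o ∈ T) (hr : r ∈ T) {γ : ℝ → X} (hγ : IsGeod γ o r)
    (hγT : ∀ t ∈ Icc (0 : ℝ) 1, γ t ∈ T) : Stew p γ o r := by
  intro θ hθ
  obtain ⟨q, hq, hpr⟩ := hc p hp r hr
  obtain ⟨δ, hδ, hδT, _⟩ := hT q hq.2 o ho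
  refine crossing hθ hpr δ ?_ ?_
  · intro σ hσ
    exact stew_of_mem_left hS hT hA hc hp hq ho hδ hδT σ hσ
  · intro σ hσ
    have hσ' : 1 - σ ∈ Icc (0 : ℝ) 1 := ⟨by linarith [hσ.2], by linarith [hσ.1]⟩
    have h1 := hT.hinge ho hq.2 hr hδ.symm (fun t ht => hδT (1 - t)
      ⟨by linarith [ht.2], by linarith [ht.1]⟩) hγ hγT hσ' hθ
    simpa using h1

/-- The angle condition at a point `a` between `x` and `y`, in the form of Stewart's inequality. -/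
theorem stew_at {x a y p : X} (hxy : dist x y = dist x a + dist a y) (w : ℝ → X)
    (hx : ∀ τ ∈ Icc (0 : ℝ) 1, dist x (w τ) ^ 2 ≤ (1 - τ) * dist x a ^ 2 + τ * dist x p ^ 2 -
      τ * (1 - τ) * dist a p ^ 2)
    (hy : ∀ τ ∈ Icc (0 : ℝ) 1, dist y (w τ) ^ 2 ≤ (1 - τ) * dist y a ^ 2 + τ * dist y p ^ 2 -
      τ * (1 - τ) * dist a p ^ 2) :
    dist a p ^ 2 * (dist x a + dist a y) ≤ dist a y * dist x p ^ 2 + dist x a * dist y p ^ 2 -
      dist x a * dist a y * (dist x a + dist a y) := by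
  obtain ⟨P, hP⟩ : ∃ P, P = dist x a := ⟨_, rfl⟩
  obtain ⟨Q, hQ⟩ : ∃ Q, Q = dist a y := ⟨_, rfl⟩
  obtain ⟨s, hs⟩ : ∃ s, s = dist a p := ⟨_, rfl⟩
  obtain ⟨α, hα⟩ : ∃ α, α = dist x p := ⟨_, rfl⟩
  obtain ⟨β, hβ⟩ : ∃ β, β = dist y p := ⟨_, rfl⟩
  have hP0 : 0 ≤ P := hP ▸ dist_nonneg
  have hQ0 : 0 ≤ Q := hQ ▸ dist_nonneg
  have htri : ∀ τ, P + Q ≤ dist x (w τ) + dist y (w τ) := fun τ => by
    rw [hP, hQ, ← hxy, dist_comm y]
    exact dist_triangle _ _ _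
  rw [dist_comm y a] at hy
  simp only [← hP, ← hQ, ← hs, ← hα, ← hβ] at hx hy ⊢
  rcases hP0.eq_or_lt with h0 | hPpos
  · have : x = a := dist_eq_zero.mp (by rw [← hP, ← h0])
    have h1 : α = s := by rw [hα, hs, this]
    rw [← h0, h1]
    apply le_of_eq
    ring
  rcases hQ0.eq_or_lt with h0 | hQpos
  · have : a = y := dist_eq_zero.mp (by rw [← hQ, ← h0])
    have h1 : β = s := by rw [hβ, hs, this]
    rw [← h0, h1]
    apply le_of_eq
    ring
  -- linearised inequality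
  obtain ⟨C₁, hC₁⟩ : ∃ C₁, C₁ = P ^ 2 + s ^ 2 - α ^ 2 := ⟨_, rfl⟩
  obtain ⟨C₂, hC₂⟩ : ∃ C₂, C₂ = Q ^ 2 + s ^ 2 - β ^ 2 := ⟨_, rfl⟩
  have hlin : ∀ u v : ℝ, 0 < u → 0 ≤ v → v ≤ u + (v ^ 2 - u ^ 2) / (2 * u) := by
    intro u v hu _
    have h1 : 0 ≤ (v - u) ^ 2 / (2 * u) := by positivity
    have h2 : u + (v ^ 2 - u ^ 2) / (2 * u) - v = (v - u) ^ 2 / (2 * u) := by
      field_simp
      ring
    linarith
  have hkey : ∀ τ ∈ Ioc (0 : ℝ) 1, C₁ / P + C₂ / Q ≤ τ * (s ^ 2 / P + s ^ 2 / Q) := by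
    intro τ hτ
    have hτ' : τ ∈ Icc (0 : ℝ) 1 := ⟨hτ.1.le, hτ.2⟩
    have h1 := hx τ hτ'
    have h2 := hy τ hτ'
    have h3 := hlin P _ hPpos (dist_nonneg : 0 ≤ dist x (w τ))
    have h4 := hlin Q _ hQpos (dist_nonneg : 0 ≤ dist y (w τ))
    have h5 : (dist x (w τ) ^ 2 - P ^ 2) / (2 * P) ≤ (τ ^ 2 * s ^ 2 - τ * C₁) / (2 * P) := by
      refine div_le_div_of_nonneg_right ?_ (by positivity)
      rw [hC₁]
      nlinarith [h1]
    have h6 : (dist y (w τ) ^ 2 - Q ^ 2) / (2 * Q) ≤ (τ ^ 2 * s ^ 2 - τ * C₂) / (2 * Q) := by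
      refine div_le_div_of_nonneg_right ?_ (by positivity)
      rw [hC₂]
      nlinarith [h2]
    have h7 := htri τ
    have h8 : 0 ≤ (τ ^ 2 * s ^ 2 - τ * C₁) / (2 * P) + (τ ^ 2 * s ^ 2 - τ * C₂) / (2 * Q) := by
      linarith
    have h9 : (τ ^ 2 * s ^ 2 - τ * C₁) / (2 * P) + (τ ^ 2 * s ^ 2 - τ * C₂) / (2 * Q) =
        (τ / 2) * (τ * (s ^ 2 / P + s ^ 2 / Q) - (C₁ / P + C₂ / Q)) := by
      field_simp
      ring
    rw [h9] at h8
    have h10 := nonneg_of_mul_nonneg_right h8 (by linarith [hτ.1])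
    linarith
  have hK : 0 ≤ s ^ 2 / P + s ^ 2 / Q := by positivity
  have hlim : C₁ / P + C₂ / Q ≤ 0 := by
    by_contra hcon
    push Not at hcon
    obtain ⟨K, hKdef⟩ : ∃ K, K = s ^ 2 / P + s ^ 2 / Q := ⟨_, rfl⟩
    obtain ⟨c, hcdef⟩ : ∃ c, c = C₁ / P + C₂ / Q := ⟨_, rfl⟩
    rw [← hKdef] at hkey hK
    rw [← hcdef] at hkey hcon
    have h1 : min 1 (c / (2 * (K + 1))) ∈ Ioc (0 : ℝ) 1 :=
      ⟨lt_min one_pos (by positivity), min_le_left _ _⟩
    have h2 := hkey _ h1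
    have h3 : min 1 (c / (2 * (K + 1))) * K ≤ c / (2 * (K + 1)) * K :=
      mul_le_mul_of_nonneg_right (min_le_right _ _) hK
    have h4 : c / (2 * (K + 1)) * K ≤ c / 2 := by
      rw [div_mul_eq_mul_div, div_le_div_iff₀ (by positivity) (by positivity)]
      nlinarith
    linarith
  have h1 : (C₁ / P + C₂ / Q) * (P * Q) ≤ 0 :=
    mul_nonpos_of_nonpos_of_nonneg hlim (mul_nonneg hP0 hQ0)
  have h2 : (C₁ / P + C₂ / Q) * (P * Q) = C₁ * Q + C₂ * P := by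
    field_simp
  rw [h2, hC₁, hC₂] at h1
  nlinarith [h1]

/-- The concatenation of two geodesics. -/
theorem exists_concat {x a y : X} (hxy : dist x y = dist x a + dist a y) {α β : ℝ → X}
    (hα : IsGeod α x a) (hβ : IsGeod β a y) :
    ∃ γ : ℝ → X, IsGeod γ x y ∧ ∀ t ∈ Icc (0 : ℝ) 1,
      (∃ s ∈ Icc (0 : ℝ) 1, γ t = α s ∧ t * dist x y = s * dist x a) ∨
      (∃ s ∈ Icc (0 : ℝ) 1, γ t = β s ∧ t * dist x y = dist x a + s * dist a y) := by
  classical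
  obtain ⟨P, hP⟩ : ∃ P, P = dist x a := ⟨_, rfl⟩
  obtain ⟨Q, hQ⟩ : ∃ Q, Q = dist a y := ⟨_, rfl⟩
  have hP0 : 0 ≤ P := hP ▸ dist_nonneg
  have hQ0 : 0 ≤ Q := hQ ▸ dist_nonneg
  rcases hP0.eq_or_lt with h0 | hPpos
  · have hxa : x = a := dist_eq_zero.mp (by rw [← hP, ← h0])
    subst hxa
    refine ⟨β, hβ, fun t ht => Or.inr ⟨t, ht, rfl, by simp⟩⟩
  rcases hQ0.eq_or_lt with h0 | hQpos
  · have hay : a = y := dist_eq_zero.mp (by rw [← hQ, ← h0])
    subst hay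
    refine ⟨α, hα, fun t ht => Or.inl ⟨t, ht, rfl, rfl⟩⟩
  obtain ⟨D, hD⟩ : ∃ D, D = P + Q := ⟨_, rfl⟩
  have hDpos : 0 < D := by rw [hD]; positivity
  have hDxy : dist x y = D := by rw [hxy, hD, hP, hQ]
  obtain ⟨γ, hγ⟩ : ∃ γ : ℝ → X, γ = fun t => if t * D ≤ P then α (t * D / P) else
    β ((t * D - P) / Q) := ⟨_, rfl⟩
  have h1 : ∀ t ∈ Icc (0 : ℝ) 1, t * D ≤ P → t * D / P ∈ Icc (0 : ℝ) 1 := by
    intro t ht h
    refine ⟨div_nonneg (mul_nonneg ht.1 hDpos.le) hP0, ?_⟩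
    rw [div_le_one hPpos]
    exact h
  have h2 : ∀ t ∈ Icc (0 : ℝ) 1, P < t * D → (t * D - P) / Q ∈ Icc (0 : ℝ) 1 := by
    intro t ht h
    refine ⟨div_nonneg (by linarith) hQ0, ?_⟩
    rw [div_le_one hQpos]
    have : t * D ≤ D := by nlinarith [ht.2]
    linarith
  have hγ1 : ∀ t, t * D ≤ P → γ t = α (t * D / P) := fun t h => by rw [hγ]; simp [h]
  have hγ2 : ∀ t, P < t * D → γ t = β ((t * D - P) / Q) := fun t h => by
    rw [hγ]; simp [not_le.mpr h]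
  have hcross : ∀ s ∈ Icc (0 : ℝ) 1, ∀ t ∈ Icc (0 : ℝ) 1, s * D ≤ P → P < t * D →
      dist (γ s) (γ t) = (t - s) * D := by
    intro s hs t ht h3 h4
    rw [hγ1 s h3, hγ2 t h4]
    have e1 := hα.dist_left (h1 s hs h3)
    have e2 := hα.dist_right (h1 s hs h3)
    have e3 := hβ.dist_left (h2 t ht h4)
    have e4 := hβ.dist_right (h2 t ht h4)
    rw [← hP] at e1 e2
    rw [← hQ] at e3 e4
    have e1' : dist x (α (s * D / P)) = s * D := by rw [e1]; field_simp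
    have e2' : dist (α (s * D / P)) a = P - s * D := by rw [e2]; field_simp
    have e3' : dist a (β ((t * D - P) / Q)) = t * D - P := by rw [e3]; field_simp
    have e4' : dist (β ((t * D - P) / Q)) y = D - t * D := by
      rw [e4, hD]; field_simp; ring
    apply le_antisymm
    · calc _ ≤ dist (α (s * D / P)) a + dist a (β ((t * D - P) / Q)) := dist_triangle _ _ _
        _ = (t - s) * D := by rw [e2', e3']; ring
    · have := dist_triangle4 x (α (s * D / P)) (β ((t * D - P) / Q)) y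
      rw [hDxy, e1', e4'] at this
      linarith
  refine ⟨γ, ⟨?_, ?_, ?_⟩, ?_⟩
  · rw [hγ1 0 (by simpa using hP0)]
    simpa using hα.1
  · rw [hγ2 1 (by rw [hD]; linarith)]
    have : (1 * D - P) / Q = 1 := by rw [hD]; field_simp; ring
    rw [this]
    exact hβ.2.1
  · intro s hs t ht
    rw [hDxy]
    rcases le_or_gt (s * D) P with h3 | h3 <;> rcases le_or_gt (t * D) P with h4 | h4
    · rw [hγ1 s h3, hγ1 t h4, hα.2.2 _ (h1 s hs h3) _ (h1 t ht h4), ← hP]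
      rw [← sub_div, abs_div, abs_of_pos hPpos, div_mul_cancel₀ _ hPpos.ne', ← sub_mul, abs_mul,
        abs_of_pos hDpos]
    · rw [hcross s hs t ht h3 h4, abs_sub_comm, abs_of_nonneg]
      by_contra hcon
      push Not at hcon
      nlinarith
    · rw [dist_comm, hcross t ht s hs h4 h3, abs_of_nonneg]
      by_contra hcon
      push Not at hcon
      nlinarith
    · rw [hγ2 s h3, hγ2 t h4, hβ.2.2 _ (h2 s hs h3) _ (h2 t ht h4), ← hQ]
      rw [← sub_div, abs_div, abs_of_pos hQpos, div_mul_cancel₀ _ hQpos.ne']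
      rw [show s * D - P - (t * D - P) = (s - t) * D by ring, abs_mul, abs_of_pos hDpos]
  · intro t ht
    rw [hDxy, ← hP, ← hQ]
    rcases le_or_gt (t * D) P with h3 | h3
    · exact Or.inl ⟨_, h1 t ht h3, hγ1 t h3, by field_simp⟩
    · exact Or.inr ⟨_, h2 t ht h3, hγ2 t h3, by field_simp; ring⟩

/-- **Gluing theorem (Reshetnyak).** -/
theorem GeoCN.union (hS : GeoCN S) (hT : GeoCN T) (hA : GeoConv (S ∩ T)) (hc : Cross S T) :
    GeoCN (S ∪ T) := by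
  -- the case of two points in the same piece
  have same : ∀ (S T : Set X), GeoCN S → GeoCN T → GeoConv (S ∩ T) → Cross S T →
      ∀ x ∈ T, ∀ y ∈ T, ∃ γ : ℝ → X, IsGeod γ x y ∧ (∀ t ∈ Icc (0 : ℝ) 1, γ t ∈ T) ∧
        ∀ p ∈ S ∪ T, Stew p γ x y := by
    intro S T hS hT hA hc x hx y hy
    obtain ⟨γ, h1, h2, h3⟩ := hT x hx y hy
    refine ⟨γ, h1, h2, ?_⟩
    rintro p (hp | hp)
    · exact stew_of_mem hS hT hA hc hp hx hy h1 h2
    · exact h3 p hp
  -- points of `S` against the concatenated geodesic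
  have mixed : ∀ (S T : Set X), GeoCN S → GeoCN T → GeoConv (S ∩ T) → Cross S T →
      ∀ x ∈ S, ∀ y ∈ T, ∀ a ∈ S ∩ T, dist x y = dist x a + dist a y →
      ∀ (α β γ : ℝ → X), IsGeod α x a → (∀ t ∈ Icc (0 : ℝ) 1, α t ∈ S) →
      IsGeod β a y → (∀ t ∈ Icc (0 : ℝ) 1, β t ∈ T) → IsGeod γ x y →
      (∀ t ∈ Icc (0 : ℝ) 1,
      (∃ s ∈ Icc (0 : ℝ) 1, γ t = α s ∧ t * dist x y = s * dist x a) ∨
      (∃ s ∈ Icc (0 : ℝ) 1, γ t = β s ∧ t * dist x y = dist x a + s * dist a y)) →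
      ∀ p ∈ S, Stew p γ x y := by
    intro S T hS hT hA hc x hx y hy a ha hxy α β γ hα hαS hβ hβT hγ hγ' p hp
    obtain ⟨w, hw, hwS, _⟩ := hS a ha.1 p hp
    have hstew := stew_at hxy w
      (fun τ hτ => hS.stew ha.1 hp hw hwS hx τ hτ)
      (fun τ hτ => by
        have hA' : GeoConv (T ∩ S) := by rw [inter_comm]; exact hA
        exact stew_of_mem_left hT hS hA' hc.symm hy ⟨ha.2, ha.1⟩ hp hw hwS τ hτ)
    obtain ⟨P, hP⟩ : ∃ P, P = dist x a := ⟨_, rfl⟩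
    obtain ⟨Q, hQ⟩ : ∃ Q, Q = dist a y := ⟨_, rfl⟩
    have hP0 : 0 ≤ P := hP ▸ dist_nonneg
    have hQ0 : 0 ≤ Q := hQ ▸ dist_nonneg
    intro t ht
    have hαp := hS.stew hx ha.1 hα hαS hp
    have hβp := stew_of_mem_left hS hT hA hc hp ha hy hβ hβT
    rw [dist_comm y p, dist_comm a p, dist_comm x p] at hstew
    rw [hxy]
    simp only [hxy, Stew, ← hP, ← hQ] at hstew hαp hβp hγ' ⊢
    obtain ⟨u, hu⟩ : ∃ u, u = dist p x := ⟨_, rfl⟩
    obtain ⟨v, hv⟩ : ∃ v, v = dist p y := ⟨_, rfl⟩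
    obtain ⟨m, hm⟩ : ∃ m, m = dist p a := ⟨_, rfl⟩
    simp only [← hu, ← hv, ← hm] at hstew hαp hβp ⊢
    have hdeg : P + Q = 0 → x = y := fun h => dist_eq_zero.mp (by rw [hxy, ← hP, ← hQ, h])
    rcases (add_nonneg hP0 hQ0).eq_or_lt with h0 | hpos
    · have hxy' := hdeg h0.symm
      have h1 : γ t = x := by
        have := hγ.dist_left ht
        rw [hxy, ← hP, ← hQ, ← h0, mul_zero] at this
        exact (dist_eq_zero.mp this).symm
      have huv : u = v := by rw [hu, hv, hxy']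
      rw [h1, ← hu, ← h0, ← huv]
      apply le_of_eq
      ring
    rcases hγ' t ht with ⟨s, hs, h1, h2⟩ | ⟨s, hs, h1, h2⟩
    · rw [h1]
      refine (hαp s hs).trans ?_
      -- multiply by `P + Q`
      refine le_of_mul_le_mul_right ?_ hpos
      have h3 := mul_le_mul_of_nonneg_left hstew hs.1
      have h4 : t * (P + Q) * (t * (P + Q)) = s * P * (s * P) := by rw [h2]
      nlinarith [h3, h4, h2]
    · rw [h1]
      refine (hβp s hs).trans ?_
      refine le_of_mul_le_mul_right ?_ hpos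
      have h3 := mul_le_mul_of_nonneg_left hstew (by linarith [hs.2] : (0 : ℝ) ≤ 1 - s)
      have h4 : t * (P + Q) * (t * (P + Q)) = (P + s * Q) * (P + s * Q) := by rw [h2]
      nlinarith [h3, h4, h2]
  have hA' : GeoConv (T ∩ S) := by rw [inter_comm]; exact hA
  -- the mixed case
  have main : ∀ x ∈ S, ∀ y ∈ T, ∃ γ : ℝ → X, IsGeod γ x y ∧
      (∀ t ∈ Icc (0 : ℝ) 1, γ t ∈ S ∪ T) ∧ ∀ p ∈ S ∪ T, Stew p γ x y := by
    intro x hx y hy
    obtain ⟨a, ha, hxy⟩ := hc x hx y hy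
    obtain ⟨α, hα, hαS, _⟩ := hS x hx a ha.1
    obtain ⟨β, hβ, hβT, _⟩ := hT a ha.2 y hy
    obtain ⟨γ, hγ, hγ'⟩ := exists_concat hxy hα hβ
    refine ⟨γ, hγ, ?_, ?_⟩
    · intro t ht
      rcases hγ' t ht with ⟨s, hs, h1, _⟩ | ⟨s, hs, h1, _⟩
      · rw [h1]; exact Or.inl (hαS s hs)
      · rw [h1]; exact Or.inr (hβT s hs)
    · rintro p (hp | hp)
      · exact mixed S T hS hT hA hc x hx y hy a ha hxy α β γ hα hαS hβ hβT hγ hγ' p hp
      · -- reverse everything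
        intro t ht
        have ht' : 1 - t ∈ Icc (0 : ℝ) 1 := ⟨by linarith [ht.2], by linarith [ht.1]⟩
        have h1 := mixed T S hT hS hA' hc.symm y hy x hx a ⟨ha.2, ha.1⟩
          (by rw [dist_comm y x, hxy, dist_comm y a, dist_comm a x]; ring)
          (fun t => β (1 - t)) (fun t => α (1 - t)) (fun t => γ (1 - t)) hβ.symm
          (fun t ht => hβT _ ⟨by linarith [ht.2], by linarith [ht.1]⟩) hα.symm
          (fun t ht => hαS _ ⟨by linarith [ht.2], by linarith [ht.1]⟩) hγ.symm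
          (by
            intro t ht
            have ht' : 1 - t ∈ Icc (0 : ℝ) 1 := ⟨by linarith [ht.2], by linarith [ht.1]⟩
            rw [dist_comm y x, dist_comm y a, dist_comm a x]
            rcases hγ' (1 - t) ht' with ⟨s, hs, h1, h2⟩ | ⟨s, hs, h1, h2⟩
            · refine Or.inr ⟨1 - s, ⟨by linarith [hs.2], by linarith [hs.1]⟩, ?_, ?_⟩
              · simpa using h1
              · linarith
            · refine Or.inl ⟨1 - s, ⟨by linarith [hs.2], by linarith [hs.1]⟩, ?_, ?_⟩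
              · simpa using h1
              · linarith)
          p hp (1 - t) ht'
        rw [dist_comm y x] at h1
        simp only [sub_sub_cancel] at h1
        refine h1.trans (le_of_eq ?_)
        ring
  rintro x (hx | hx) y (hy | hy)
  · obtain ⟨γ, h1, h2, h3⟩ := same T S hT hS hA' hc.symm x hx y hy
    exact ⟨γ, h1, fun t ht => Or.inl (h2 t ht), fun p hp => h3 p hp.symm⟩
  · exact main x hx y hy
  · obtain ⟨γ, h1, h2, h3⟩ := main y hy x hx
    refine ⟨fun t => γ (1 - t), h1.symm, fun t ht => h2 _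
      ⟨by linarith [ht.2], by linarith [ht.1]⟩, ?_⟩
    intro p hp t ht
    have h4 := h3 p hp (1 - t) ⟨by linarith [ht.2], by linarith [ht.1]⟩
    rw [dist_comm y x] at h4
    refine h4.trans (le_of_eq ?_)
    ring
  · obtain ⟨γ, h1, h2, h3⟩ := same S T hS hT hA hc x hx y hy
    exact ⟨γ, h1, fun t ht => Or.inr (h2 t ht), h3⟩

end Pool.Agent.CNGlue
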