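import Pool.Agent.CNGlue.Constr

/-!
# Simultaneous gluing of many pieces to a base
-/

set_option autoImplicit false

namespace Pool.Agent.CNGlue

open Set

variable {X : Type*} [MetricSpace X]

/-- Gluing a finite family of pieces. -/
theorem star_glue_finset {ι : Type*} [DecidableEq ι] {B : Set X} {P : ι → Set X} (hB : GeoCN B)
    (hP : ∀ i, GeoCN (P i)) (hA : ∀ i, GeoConv (P i ∩ B))
    (hc : ∀ i, ∀ x ∈ B, ∀ y ∈ P i, ∃ a ∈ P i ∩ B, dist x y = dist x a + dist a y)
    (hc' : ∀ i j, i ≠ j → ∀ x ∈ P j, ∀ y ∈ P i, ∃ a ∈ P i ∩ B, dist x y = dist x a + dist a y)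
    (s : Finset ι) : GeoCN (B ∪ ⋃ i ∈ s, P i) := by
  induction s using Finset.induction_on with
  | empty => simpa using hB
  | insert i s his ih =>
    have h1 : (B ∪ ⋃ j ∈ insert i s, P j) = (B ∪ ⋃ j ∈ s, P j) ∪ P i := by
      ext x
      simp only [Finset.mem_insert, mem_union, mem_iUnion, exists_prop]
      constructor
      · rintro (h | ⟨j, rfl | hj, h⟩)
        · exact Or.inl (Or.inl h)
        · exact Or.inr h
        · exact Or.inl (Or.inr ⟨j, hj, h⟩)
      · rintro ((h | ⟨j, hj, h⟩) | h)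
        · exact Or.inl h
        · exact Or.inr ⟨j, Or.inr hj, h⟩
        · exact Or.inr ⟨i, Or.inl rfl, h⟩
    have hne : ∀ j ∈ s, i ≠ j := fun j hj h => his (h ▸ hj)
    -- the intersection with the new piece
    have hcross : ∀ x ∈ B ∪ ⋃ j ∈ s, P j, ∀ y ∈ P i, ∃ a ∈ P i ∩ B,
        dist x y = dist x a + dist a y := by
      intro x hx y hy
      rcases hx with hx | hx
      · exact hc i x hx y hy
      · simp only [mem_iUnion, exists_prop] at hx
        obtain ⟨j, hj, hx⟩ := hx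
        exact hc' i j (hne j hj) x hx y hy
    have hint : (B ∪ ⋃ j ∈ s, P j) ∩ P i = P i ∩ B := by
      apply Subset.antisymm
      · rintro x ⟨hx, hxi⟩
        obtain ⟨a, ha, h⟩ := hcross x hx x hxi
        rw [dist_self] at h
        have h2 : dist x a = 0 := by
          have := dist_nonneg (x := x) (y := a)
          have := dist_nonneg (x := a) (y := x)
          linarith
        rw [dist_eq_zero.mp h2]
        exact ha
      · rintro x ⟨h2, h3⟩
        exact ⟨Or.inl h3, h2⟩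
    rw [h1]
    refine ih.union (hP i) ?_ ?_
    · rw [hint]; exact hA i
    · intro x hx y hy
      obtain ⟨a, ha, h⟩ := hcross x hx y hy
      exact ⟨a, by rw [hint]; exact ha, h⟩

/-- **Star gluing.** -/
theorem star_glue {ι : Type*} {B : Set X} {P : ι → Set X} (hB : GeoCN B)
    (hP : ∀ i, GeoCN (P i)) (hA : ∀ i, GeoConv (P i ∩ B))
    (hc : ∀ i, ∀ x ∈ B, ∀ y ∈ P i, ∃ a ∈ P i ∩ B, dist x y = dist x a + dist a y)
    (hc' : ∀ i j, i ≠ j → ∀ x ∈ P j, ∀ y ∈ P i, ∃ a ∈ P i ∩ B, dist x y = dist x a + dist a y) :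
    GeoCN (B ∪ ⋃ i, P i) := by
  classical
  have h1 : (B ∪ ⋃ i, P i) = ⋃ s : Finset ι, (B ∪ ⋃ i ∈ s, P i) := by
    ext x
    simp only [mem_union, mem_iUnion, exists_prop]
    constructor
    · rintro (h | ⟨i, h⟩)
      · exact ⟨∅, Or.inl h⟩
      · exact ⟨{i}, Or.inr ⟨i, by simp, h⟩⟩
    · rintro ⟨s, h | ⟨i, _, h⟩⟩
      · exact Or.inl h
      · exact Or.inr ⟨i, h⟩
  rw [h1]
  refine GeoCN.iUnion ?_ (fun s => star_glue_finset hB hP hA hc hc' s)
  intro s t
  refine ⟨s ∪ t, ?_, ?_⟩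
  · apply union_subset_union_right
    exact biUnion_subset_biUnion_left (by simp)
  · apply union_subset_union_right
    exact biUnion_subset_biUnion_left (by simp)

end Pool.Agent.CNGlue
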